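import Pool.Agent.H717.PM.Stm
import Pool.Agent.H962.PR.Mem

/-!
# PM717: `S_closed` and `S_edge`
-/

set_option autoImplicit false

namespace Pool.Agent.H670.PM

open Pool.Agent.NPC Pool.Agent.H622R2 Pool.Agent.V11227.BT Pool.Agent.H717.PM
open Pool.Agent.H717
open Pool.Agent.R39.PCG (WTree IsInterval IsOrPCG IsAndPCG IsIntervalPCG)

theorem t_closed : S_closed := by
  intro V _ G d I hI hG ⟨u₀, v₀, h₀⟩
  have hfin : ({p : V × V | G.Adj p.1 p.2}).Finite := Set.toFinite _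
  have hne : ({p : V × V | G.Adj p.1 p.2}).Nonempty := ⟨(u₀, v₀), h₀⟩
  obtain ⟨p, hp, hp'⟩ := Set.exists_min_image _ (fun p : V × V => d p.1 p.2) hfin hne
  obtain ⟨q, hq, hq'⟩ := Set.exists_max_image _ (fun p : V × V => d p.1 p.2) hfin hne
  have hp1 : G.Adj p.1 p.2 := hp
  have hq1 : G.Adj q.1 q.2 := hq
  refine ⟨d p.1 p.2, d q.1 q.2, hq' p hp, fun u v => ⟨fun h => ?_, fun h => ?_⟩⟩
  · exact ⟨G.ne_of_adj h, hp' (u, v) h, hq' (u, v) h⟩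
  · obtain ⟨h1, h2, h3⟩ := h
    rw [hG u v h1]
    have hpI : d p.1 p.2 ∈ I := (hG _ _ (G.ne_of_adj hp1)).1 hp1
    have hqI : d q.1 q.2 ∈ I := (hG _ _ (G.ne_of_adj hq1)).1 hq1
    exact hI.1.out hpI hqI ⟨h2, h3⟩

theorem t_edge : S_edge := by
  intro I hI
  obtain ⟨⟨n, hn, hI1⟩, _⟩ := hI
  have h0 : (0 : ℕ) ∈ I.1 := by
    rw [hI1, List.mem_range]
    omega
  have hb1 : ((1, 0) : PR.Lb) ∈ PR.base I := by
    unfold PR.base
    simp only [List.mem_append, List.mem_map]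
    exact Or.inr (Or.inl ⟨0, h0, rfl⟩)
  have hb2 : ((2, 0) : PR.Lb) ∈ PR.base I := by
    unfold PR.base
    simp only [List.mem_append, List.mem_map]
    exact Or.inr (Or.inr (Or.inl ⟨0, h0, rfl⟩))
  have hfar : PR.far I (1, 0) (2, 0) = true := by
    unfold PR.far PR.farB
    simp
  have hw : ((5, ((1, 0), (2, 0))) : PR.VL) ∈ PR.vs I := by
    rw [Pool.Agent.H962.PR.t_mem I]
    exact Or.inr (Or.inr ⟨by norm_num, by norm_num, hb1, hb2, hfar⟩)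
  have hz : ((0, ((1, 0), (1, 0))) : PR.VL) ∈ PR.vs I := by
    rw [Pool.Agent.H962.PR.t_mem I]
    exact Or.inl ⟨rfl, rfl, hb1⟩
  have hne : (⟨(5, ((1, 0), (2, 0))), hw⟩ : {w : PR.VL // w ∈ PR.vs I}) ≠
      ⟨(0, ((1, 0), (1, 0))), hz⟩ := by
    intro h
    have h1 := congrArg (fun w : {w : PR.VL // w ∈ PR.vs I} => w.1.1) h
    exact absurd h1 (by norm_num)
  refine ⟨⟨⟨(5, ((1, 0), (2, 0))), hw⟩, ⟨(0, ((1, 0), (1, 0))), hz⟩, hne, Or.inl ?_⟩, ⟨_, _, hne⟩⟩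
  unfold PR.adj
  simp

end Pool.Agent.H670.PM
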